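import Pool.Agent.Helper66.HK.E5

/-! Entropy library, module E7: two conditionally independent copies. -/

namespace Pool.Agent.Helper66.HK

open Finset Pool.Agent.Helper69.RK

theorem e7_cop2 {Ω γ : Type} [Fintype Ω] (μ : Ω → ℝ) (G : Ω → γ) (w : Ω × Ω) [Decidable (G w.1 = G w.2)] :
    cop2 μ G w = if G w.1 = G w.2 then μ w.1 * μ w.2 / pr μ G w.1 else 0 := by
  unfold cop2
  split_ifs <;> rfl

theorem e7_fst {Ω γ : Type} [Fintype Ω] (μ : Ω → ℝ) (G : Ω → γ) (hμ : ∀ ω, 0 ≤ μ ω) (ω : Ω) :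
    ∑ ω' : Ω, cop2 μ G (ω, ω') = μ ω := by
  classical
  by_cases h0 : μ ω = 0
  · rw [h0]
    refine Finset.sum_eq_zero fun ω' _ => ?_
    rw [e7_cop2]
    simp [h0]
  · have hp := e1_pr_pos μ G hμ ω h0
    have h1 : ∀ ω', cop2 μ G (ω, ω') = (if G ω' = G ω then μ ω' else 0) * (μ ω / pr μ G ω) := by
      intro ω'
      rw [e7_cop2]
      by_cases h2 : G ω = G ω'
      · simp only [h2, if_true]
        ring
      · have h3 : ¬ G ω' = G ω := fun h => h2 h.symm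
        simp only [h2, h3, if_false, zero_mul]
    rw [Finset.sum_congr rfl (fun ω' _ => h1 ω'), ← Finset.sum_mul, ← e1_pr_eq]
    field_simp

theorem e7_sym {Ω γ : Type} [Fintype Ω] (μ : Ω → ℝ) (G : Ω → γ) (w : Ω × Ω) :
    cop2 μ G w = cop2 μ G (w.2, w.1) := by
  classical
  rw [e7_cop2, e7_cop2]
  by_cases h : G w.1 = G w.2
  · have h' : G w.2 = G w.1 := h.symm
    simp only [h, if_true]
    rw [e1_pr_atom μ G w.1 w.2 h]
    ring
  · have h' : ¬ G w.2 = G w.1 := fun e => h e.symm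
    simp only [h, h', if_false]

/-- mass of the atoms of pairs -/
theorem e7_pr {Ω α β γ : Type} [Fintype Ω] (μ : Ω → ℝ) (G : Ω → γ) (_hμ : ∀ ω, 0 ≤ μ ω) (f : Ω → α) (h : Ω → β)
    (w : Ω × Ω) (hG : G w.1 = G w.2) :
    pr (cop2 μ G) (fun v : Ω × Ω => (f v.1, h v.2, G v.1)) w =
      pr μ (fun ω => (f ω, G ω)) w.1 * pr μ (fun ω => (h ω, G ω)) w.2 / pr μ G w.1 := by
  classical
  rw [e1_pr_eq, e1_pr_eq, e1_pr_eq, Fintype.sum_prod_type, Finset.sum_mul, Finset.sum_div]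
  refine Finset.sum_congr rfl fun ω1 _ => ?_
  by_cases h1 : (f ω1, G ω1) = (f w.1, G w.1)
  · have h1' := Prod.ext_iff.1 h1
    simp only at h1'
    rw [if_pos h1, Finset.mul_sum, Finset.sum_div]
    refine Finset.sum_congr rfl fun ω2 _ => ?_
    by_cases h2 : (h ω2, G ω2) = (h w.2, G w.2)
    · have h2' := Prod.ext_iff.1 h2
      simp only at h2'
      have h3 : (f ω1, h ω2, G ω1) = (f w.1, h w.2, G w.1) := by
        rw [h1'.1, h1'.2, h2'.1]
      rw [if_pos h3, if_pos h2, e7_cop2]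
      have h4 : G ω1 = G ω2 := by rw [h1'.2, hG, h2'.2]
      simp only [h4, if_true]
      rw [← e1_pr_atom μ G ω1 w.1 h1'.2]
    · rw [if_neg h2, mul_zero, zero_div]
      by_cases h3 : (f ω1, h ω2, G ω1) = (f w.1, h w.2, G w.1)
      · rw [if_pos h3, e7_cop2]
        have h3' := Prod.ext_iff.1 h3
        have h3'' := Prod.ext_iff.1 h3'.2
        simp only at h3''
        have h4 : ¬ G ω1 = G ω2 := by
          intro h5
          exact h2 (by rw [h3''.1, ← h5, h1'.2, hG])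
        simp only [h4, if_false]
      · rw [if_neg h3]
  · rw [if_neg h1, zero_mul, zero_div]
    refine Finset.sum_eq_zero fun ω2 _ => ?_
    rw [if_neg]
    intro h3
    have h3' := Prod.ext_iff.1 h3
    have h3'' := Prod.ext_iff.1 h3'.2
    simp only at h3' h3''
    exact h1 (by rw [h3'.1, h3''.2])

theorem e7_pr' {Ω β γ : Type} [Fintype Ω] (μ : Ω → ℝ) (G : Ω → γ) (hμ : ∀ ω, 0 ≤ μ ω) (h : Ω → β)
    (w : Ω × Ω) (hG : G w.1 = G w.2) (hp : 0 < pr μ G w.1) :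
    pr (cop2 μ G) (fun v : Ω × Ω => (h v.2, G v.1)) w = pr μ (fun ω => (h ω, G ω)) w.2 := by
  have h1 := e7_pr μ G hμ (fun _ => ()) h w hG
  have h2 : pr (cop2 μ G) (fun v : Ω × Ω => ((), h v.2, G v.1)) w =
      pr (cop2 μ G) (fun v : Ω × Ω => (h v.2, G v.1)) w := by
    refine e1_pr_congr _ _ _ _ fun v _ => ?_
    simp only [Prod.mk.injEq, true_and]
  have h3 : pr μ (fun ω => ((), G ω)) w.1 = pr μ G w.1 := by
    refine e1_pr_congr _ _ _ _ fun v _ => ?_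
    simp only [Prod.mk.injEq, true_and]
  rw [h2, h3] at h1
  rw [h1]
  field_simp

theorem e7_nonneg {Ω γ : Type} [Fintype Ω] (μ : Ω → ℝ) (G : Ω → γ) (hμ : ∀ ω, 0 ≤ μ ω) (w : Ω × Ω) :
    0 ≤ cop2 μ G w := by
  classical
  rw [e7_cop2]
  split_ifs
  · exact div_nonneg (mul_nonneg (hμ _) (hμ _)) (e1_pr_nonneg μ G hμ _)
  · exact le_rfl

theorem e7_supp {Ω γ : Type} [Fintype Ω] (μ : Ω → ℝ) (G : Ω → γ) (w : Ω × Ω) (h : cop2 μ G w ≠ 0) :
    G w.1 = G w.2 ∧ μ w.1 ≠ 0 ∧ μ w.2 ≠ 0 := by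
  classical
  rw [e7_cop2] at h
  by_cases h1 : G w.1 = G w.2
  · rw [if_pos h1] at h
    refine ⟨h1, ?_, ?_⟩
    · intro h2
      exact h (by rw [h2]; simp)
    · intro h2
      exact h (by rw [h2]; simp)
  · rw [if_neg h1] at h
    exact absurd rfl h

theorem e7_push_fst {Ω γ : Type} [Fintype Ω] (μ : Ω → ℝ) (G : Ω → γ) (hμ : ∀ ω, 0 ≤ μ ω) :
    push Prod.fst (cop2 μ G) = μ := by
  classical
  funext ω
  have h1 : push (Prod.fst : Ω × Ω → Ω) (cop2 μ G) ω = ∑ w : Ω × Ω, if w.1 = ω then cop2 μ G w else 0 := by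
    unfold push
    refine Finset.sum_congr rfl fun w _ => ?_
    split_ifs <;> rfl
  rw [h1, Fintype.sum_prod_type]
  have h2 : ∀ ω1 : Ω, (∑ ω2 : Ω, if (ω1, ω2).1 = ω then cop2 μ G (ω1, ω2) else 0) =
      if ω1 = ω then μ ω1 else 0 := by
    intro ω1
    by_cases h : ω1 = ω
    · simp only [h, if_true]
      exact e7_fst μ G hμ ω
    · simp only [h, if_false]
      simp
  rw [Finset.sum_congr rfl (fun ω1 _ => h2 ω1), Finset.sum_ite_eq']
  simp

theorem e7_push_snd {Ω γ : Type} [Fintype Ω] (μ : Ω → ℝ) (G : Ω → γ) (hμ : ∀ ω, 0 ≤ μ ω) :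
    push Prod.snd (cop2 μ G) = μ := by
  classical
  funext ω
  have h1 : push (Prod.snd : Ω × Ω → Ω) (cop2 μ G) ω = ∑ w : Ω × Ω, if w.2 = ω then cop2 μ G w else 0 := by
    unfold push
    refine Finset.sum_congr rfl fun w _ => ?_
    split_ifs <;> rfl
  rw [h1, Fintype.sum_prod_type, Finset.sum_comm]
  have h2 : ∀ ω2 : Ω, (∑ ω1 : Ω, if (ω1, ω2).2 = ω then cop2 μ G (ω1, ω2) else 0) =
      if ω2 = ω then μ ω2 else 0 := by
    intro ω2
    by_cases h : ω2 = ω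
    · simp only [h, if_true]
      rw [← e7_fst μ G hμ ω]
      exact Finset.sum_congr rfl fun ω1 _ => e7_sym μ G (ω1, ω)
    · simp only [h, if_false]
      simp
  rw [Finset.sum_congr rfl (fun ω2 _ => h2 ω2), Finset.sum_ite_eq']
  simp

theorem st_E7 : ST_E7 := by
  intro Ω γ _ μ G hμ
  refine ⟨e7_nonneg μ G hμ, e7_supp μ G, e7_sym μ G, e7_push_fst μ G hμ, e7_push_snd μ G hμ, ?_⟩
  intro α β f h
  have h5 := (st_E5.1 Ω (Ω × Ω) α γ (cop2 μ G) Prod.fst f G (e7_nonneg μ G hμ)).2.2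
  rw [e7_push_fst μ G hμ] at h5
  rw [h5]
  unfold CH
  refine Finset.sum_congr rfl fun w _ => ?_
  by_cases h0 : cop2 μ G w = 0
  · simp [h0]
  · obtain ⟨hG, h1, h2⟩ := e7_supp μ G w h0
    have hp := e1_pr_pos μ G hμ w.1 h1
    have hp2 := e1_pr_pos μ (fun ω => (h ω, G ω)) hμ w.2 h2
    have hp3 := e1_pr_pos μ (fun ω => (f ω, G ω)) hμ w.1 h1
    have e1 := e7_pr μ G hμ f h w hG
    have e2 := e7_pr' μ G hμ h w hG hp
    have e3 : pr (cop2 μ G) (fun v : Ω × Ω => G v.1) w = pr μ G w.1 := by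
      have h6 := e5_pr_push (cop2 μ G) (Prod.fst : Ω × Ω → Ω) G w
      rw [e7_push_fst μ G hμ] at h6
      exact h6.symm
    have e4 : pr (cop2 μ G) (fun v : Ω × Ω => (f v.1, G v.1)) w = pr μ (fun ω => (f ω, G ω)) w.1 := by
      have h6 := e5_pr_push (cop2 μ G) (Prod.fst : Ω × Ω → Ω) (fun ω => (f ω, G ω)) w
      rw [e7_push_fst μ G hμ] at h6
      exact h6.symm
    rw [e1, e2, e3, e4, Real.logb_div (mul_pos hp3 hp2).ne' hp.ne', Real.logb_mul hp3.ne' hp2.ne']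
    ring

end Pool.Agent.Helper66.HK
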