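import Pool.Agent.Helper96.RK.E1

/-! Entropy library, module E5: push-forward and scaling. -/

namespace Pool.Agent.Helper66.HK

open Finset Pool.Agent.Helper69.RK

theorem e5_sum_push {Ω Ω' : Type} [Fintype Ω] [Fintype Ω'] (μ' : Ω' → ℝ) (π : Ω' → Ω) (F : Ω → ℝ) :
    ∑ ω, push π μ' ω * F ω = ∑ w, μ' w * F (π w) := by
  classical
  have h1 : ∀ ω, push π μ' ω * F ω = ∑ w, if π w = ω then μ' w * F ω else 0 := by
    intro ω
    unfold push
    rw [Finset.sum_mul]
    refine Finset.sum_congr rfl fun w _ => ?_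
    split_ifs <;> simp_all
  rw [Finset.sum_congr rfl (fun ω _ => h1 ω), Finset.sum_comm]
  refine Finset.sum_congr rfl fun w _ => ?_
  rw [Finset.sum_ite_eq]
  simp

theorem e5_pr_push {Ω Ω' α : Type} [Fintype Ω] [Fintype Ω'] (μ' : Ω' → ℝ) (π : Ω' → Ω) (f : Ω → α) (w : Ω') :
    pr (push π μ') f (π w) = pr μ' (fun w' => f (π w')) w := by
  classical
  rw [e1_pr_eq, e1_pr_eq]
  have h := e5_sum_push μ' π (fun ω => if f ω = f (π w) then (1 : ℝ) else 0)
  simp only [mul_ite, mul_one, mul_zero] at h
  exact h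

theorem st_E5 : ST_E5 := by
  refine ⟨?_, ?_⟩
  · intro Ω Ω' α γ _ _ μ' π f g hμ
    refine ⟨?_, ?_, ?_⟩
    · intro ω
      unfold push
      refine Finset.sum_nonneg fun w _ => ?_
      split_ifs
      · exact hμ w
      · exact le_rfl
    · have h := e5_sum_push μ' π (fun _ => (1 : ℝ))
      simp only [mul_one] at h
      exact h
    · unfold CH
      have h := e5_sum_push μ' π (fun ω => Real.logb 2 (pr (push π μ') g ω) -
        Real.logb 2 (pr (push π μ') (fun ω' => (f ω', g ω')) ω))
      rw [h]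
      refine Finset.sum_congr rfl fun w _ => ?_
      rw [e5_pr_push, e5_pr_push]
  · intro Ω α γ _ μ f g c hc hμ
    rcases hc.eq_or_lt with h0 | h0
    · rw [← h0]
      unfold CH
      simp
    · unfold CH
      rw [Finset.mul_sum]
      refine Finset.sum_congr rfl fun ω _ => ?_
      by_cases h1 : μ ω = 0
      · simp [h1]
      · have hp : ∀ {β : Type} (k : Ω → β), pr (fun ω => c * μ ω) k ω = c * pr μ k ω := by
          intro β k
          classical
          rw [e1_pr_eq, e1_pr_eq, Finset.mul_sum]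
          refine Finset.sum_congr rfl fun ω' _ => ?_
          split_ifs <;> simp
        rw [hp, hp, Real.logb_mul h0.ne' (e1_pr_pos μ _ hμ ω h1).ne',
          Real.logb_mul h0.ne' (e1_pr_pos μ _ hμ ω h1).ne']
        ring

end Pool.Agent.Helper66.HK
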