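import Pool.Agent.Helper66.HK.Stmts
import Pool.Agent.Helper70.HS.Stmts

/-! Sticky Kakeya sets, core of the Hausdorff form: the form used by the passage to sets. -/

namespace Pool.Agent.Helper66.HK

/-- (OUT) the form of helper70 -/
def ST_OUT : Prop := ∀ m : ℕ, GapH m 0 → Pool.Agent.Helper70.HS.GapH m

/-- (UNI) uniform heights (helper69's Minkowski form) -/
def ST_UNI : Prop := ∀ m : ℕ, GapH m 0 → Pool.Agent.Helper69.RK.Gap m 0

end Pool.Agent.Helper66.HK
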