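import Pool.Agent.Helper69.RK.StE

/-! Sticky Kakeya sets, core of the Hausdorff form: definitions and statements of the modules
(paper proof: /team-store/h66_hausdorff_simple.md, blueprint: /team-store/hk_blueprint.md).
All entropies are in bits, all spaces are finite weighted spaces. -/

namespace Pool.Agent.Helper66.HK

open Finset Pool.Agent.Helper69.RK

noncomputable section

/-! ### definitions -/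

/-- conditional mutual information `I(f; h | g)` in bits -/
def MI {Ω α β γ : Type} [Fintype Ω] (μ : Ω → ℝ) (f : Ω → α) (h : Ω → β) (g : Ω → γ) : ℝ :=
  CH μ f g - CH μ f (fun ω => (h ω, g ω))

/-- drop the last `k` binary digits -/
def dv {m : ℕ} (k : ℕ) (v : Fin m → ℤ) : Fin m → ℤ := fun i => v i / (2 : ℤ) ^ k

/-- the first `n` binary digits of the height `t`, as an integer -/
def hn (n : ℕ) (t : ℝ) : ℤ := ⌊(2 : ℝ) ^ n * t⌋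

/-- the digits after the first `l` -/
def fr {m : ℕ} (l : ℕ) (y : Fin m → ℝ) : Fin m → ℝ := fun i => Int.fract ((2 : ℝ) ^ l * y i)

/-- the cell of level `l` of the line `(a, x)` -/
def xi {m : ℕ} (l : ℕ) (a x : Fin m → ℝ) : (Fin m → ℤ) × (Fin m → ℤ) := (cel l a, cel l x)

/-- the cell of level `n` of the point at height `t`, moved by the noise `v` (in units `2 ^ (-n)`) -/
def Yn {m : ℕ} (n : ℕ) (t : ℝ) (a x : Fin m → ℝ) (v : Fin m → ℤ) : Fin m → ℤ :=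
  cel n (Yt t a x) + v

/-- systems of depth `n` with heights: `I(x_n; a_k | x_k, Z)` is small for every level `k` (this holds for sticky
systems, where the cell of level `k` of the line is almost determined by the cell of its direction, and also for
systems with full directions in every tube); the height is almost uniform given the line and almost independent of the
line -/
structure HS (m n : ℕ) (η : ℝ) {Ω ζ : Type} [Fintype Ω] (μ : Ω → ℝ) (Z : Ω → ζ)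
    (a x : Ω → Fin m → ℝ) (t : Ω → ℝ) : Prop where
  nn : ∀ ω, 0 ≤ μ ω
  ms : mass μ = 1
  ab : ∀ ω i, 0 ≤ a ω i ∧ a ω i < 1
  xb : ∀ ω i, 0 ≤ x ω i ∧ x ω i < 1
  tb : ∀ ω, 0 ≤ t ω ∧ t ω < 1
  st : ∀ k ≤ n, MI μ (fun ω => cel n (x ω)) (fun ω => cel k (a ω)) (fun ω => (cel k (x ω), Z ω)) ≤ η * n
  h1 : (1 - η) * n ≤ CH μ (fun ω => hn n (t ω)) (fun ω => ((a ω, x ω), Z ω))
  h2 : MI μ (fun ω => (a ω, x ω)) t Z ≤ η * n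

/-- `γ` is an upper bound for the rate of the gap `H(x_n | Z) - H(P_n | Z, t)` -/
def GapH (m : ℕ) (γ : ℝ) : Prop :=
  ∀ ε : ℝ, 0 < ε → ∃ η : ℝ, 0 < η ∧ ∃ n0 : ℕ, ∀ n : ℕ, n0 ≤ n →
    ∀ (Ω ζ : Type) [Fintype Ω] (μ : Ω → ℝ) (Z : Ω → ζ) (a x : Ω → Fin m → ℝ) (t : Ω → ℝ),
      HS m n η μ Z a x t →
      CH μ (fun ω => cel n (x ω)) Z - CH μ (fun ω => cel n (Yt (t ω) (a ω) (x ω))) (fun ω => (t ω, Z ω)) ≤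
        (γ + ε) * n

/-- `ν` is an upper bound for the rate of the noise that can be absorbed by a system of gap `γ` -/
def NB (m : ℕ) (γ ν : ℝ) : Prop :=
  ∀ ε : ℝ, 0 < ε → ∃ η : ℝ, 0 < η ∧ ∃ n0 : ℕ, ∀ n : ℕ, n0 ≤ n →
    ∀ (Ω ζ θ : Type) [Fintype Ω] (μ : Ω → ℝ) (Z : Ω → ζ) (a x : Ω → Fin m → ℝ) (t : Ω → ℝ) (Θ : Ω → θ)
      (Λ : Ω → Fin m → ℤ),
      HS m n η μ Z a x t →
      MI μ (fun ω => (a ω, x ω)) (fun ω => (Θ ω, Λ ω)) (fun ω => (t ω, Z ω)) ≤ η * n →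
      CH μ (fun ω => Yn n (t ω) (a ω) (x ω) (Λ ω)) (fun ω => (Θ ω, t ω, Z ω)) ≤
        CH μ (fun ω => cel n (x ω)) Z - (γ - η) * n →
      CH μ Λ (fun ω => (Θ ω, t ω, Z ω)) ≤ (ν + ε) * n

/-- window form of `GapH` -/
def WinL (m : ℕ) (γ : ℝ) : Prop :=
  ∀ ε κ : ℝ, 0 < ε → 0 < κ → ∃ η : ℝ, 0 < η ∧ ∃ n0 : ℕ, ∀ n : ℕ, n0 ≤ n →
    ∀ (Ω ζ : Type) [Fintype Ω] (μ : Ω → ℝ) (Z : Ω → ζ) (a x : Ω → Fin m → ℝ) (t : Ω → ℝ),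
      HS m n η μ Z a x t → ∀ l w : ℕ, l + w ≤ n → κ * n ≤ w →
      CH μ (fun ω => cel (l + w) (x ω)) (fun ω => (cel l (x ω), Z ω)) - (γ + ε) * w ≤
        CH μ (fun ω => cel (l + w) (Yt (t ω) (a ω) (x ω))) (fun ω => (t ω, xi l (a ω) (x ω), Z ω))

/-- window form of `NB` -/
def WinN (m : ℕ) (γ ν : ℝ) : Prop :=
  ∀ ε κ : ℝ, 0 < ε → 0 < κ → ∃ η : ℝ, 0 < η ∧ ∃ n0 : ℕ, ∀ n : ℕ, n0 ≤ n →
    ∀ (Ω ζ θ : Type) [Fintype Ω] (μ : Ω → ℝ) (Z : Ω → ζ) (a x : Ω → Fin m → ℝ) (t : Ω → ℝ) (Θ : Ω → θ)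
      (A : Ω → Fin m → ℤ),
      HS m n η μ Z a x t → ∀ l w : ℕ, l + w ≤ n → κ * n ≤ w →
      MI μ (fun ω => (a ω, x ω)) (fun ω => (Θ ω, A ω)) (fun ω => (t ω, xi l (a ω) (x ω), Z ω)) ≤ η * n →
      CH μ (fun ω => Yn (l + w) (t ω) (a ω) (x ω) (A ω)) (fun ω => (Θ ω, t ω, xi l (a ω) (x ω), Z ω)) ≤
        CH μ (fun ω => cel (l + w) (x ω)) (fun ω => (cel l (x ω), Z ω)) - γ * w + η * n →
      CH μ A (fun ω => (Θ ω, t ω, xi l (a ω) (x ω), Z ω)) ≤ (ν + ε) * w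

/-! ### zoom -/

/-- (ZH) zooms of sticky systems are sticky systems -/
def ST_ZH : Prop :=
  ∀ (m n l w : ℕ) (η : ℝ) (Ω ζ : Type) [Fintype Ω] (μ : Ω → ℝ) (Z : Ω → ζ) (a x : Ω → Fin m → ℝ) (t : Ω → ℝ),
    HS m n η μ Z a x t → l + w ≤ n → 1 ≤ w →
    HS m w (η * n / w) μ (fun ω => (xi l (a ω) (x ω), Z ω)) (fun ω => fr l (a ω)) (fun ω => fr l (x ω)) t

/-- (ZC) entropies of the zoom -/
def ST_ZC : Prop :=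
  ∀ (m l w : ℕ) (Ω ζ θ : Type) [Fintype Ω] (μ : Ω → ℝ) (Z : Ω → ζ) (Θ : Ω → θ) (a x : Ω → Fin m → ℝ) (t : Ω → ℝ)
    (A : Ω → Fin m → ℤ), (∀ ω, 0 ≤ μ ω) → mass μ = 1 →
    CH μ (fun ω => cel w (fr l (x ω))) (fun ω => (xi l (a ω) (x ω), Z ω)) =
      CH μ (fun ω => cel (l + w) (x ω)) (fun ω => (xi l (a ω) (x ω), Z ω)) ∧
    (∀ n, l + w ≤ n → CH μ (fun ω => cel (l + w) (x ω)) (fun ω => (cel l (x ω), Z ω)) ≤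
      CH μ (fun ω => cel (l + w) (x ω)) (fun ω => (xi l (a ω) (x ω), Z ω)) +
        MI μ (fun ω => cel n (x ω)) (fun ω => cel l (a ω)) (fun ω => (cel l (x ω), Z ω))) ∧
    |CH μ (fun ω => Yn w (t ω) (fr l (a ω)) (fr l (x ω)) (A ω)) (fun ω => (Θ ω, t ω, xi l (a ω) (x ω), Z ω)) -
      CH μ (fun ω => Yn (l + w) (t ω) (a ω) (x ω) (A ω)) (fun ω => (Θ ω, t ω, xi l (a ω) (x ω), Z ω))| ≤ m ∧
    |CH μ (fun ω => cel w (Yt (t ω) (fr l (a ω)) (fr l (x ω)))) (fun ω => (t ω, xi l (a ω) (x ω), Z ω)) -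
      CH μ (fun ω => cel (l + w) (Yt (t ω) (a ω) (x ω))) (fun ω => (t ω, xi l (a ω) (x ω), Z ω))| ≤ m

/-- (WL) window form of the gap bound -/
def ST_WL : Prop := ∀ (m : ℕ) (γ : ℝ), GapH m γ → WinL m γ

/-- (WN) window form of the noise bound -/
def ST_WN : Prop := ∀ (m : ℕ) (γ ν : ℝ), NB m γ ν → WinN m γ ν

/-! ### windows of an absorbed noise -/

/-- (LOW) lower bound on a window, conditionally on additional data `R` (the noise itself is in the condition) -/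
def ST_LOW : Prop :=
  ∀ (m M : ℕ) (γ : ℝ), 1 ≤ M → WinL m γ → ∀ ε : ℝ, 0 < ε → ∃ η : ℝ, 0 < η ∧ ∃ n0 : ℕ, ∀ n : ℕ, n0 ≤ n →
    ∀ (Ω ζ ρ : Type) [Fintype Ω] (μ : Ω → ℝ) (Z : Ω → ζ) (R : Ω → ρ) (a x : Ω → Fin m → ℝ) (t : Ω → ℝ)
      (Λ : Ω → Fin m → ℤ),
      HS m n η μ Z a x t → Dep μ R t → Dep μ R Λ →
      MI μ (fun ω => (a ω, x ω)) R Z ≤ η * n → ∀ i : ℕ, i < M →
      CH μ (fun ω => cel ((i + 1) * (n / M)) (x ω)) (fun ω => (cel (i * (n / M)) (x ω), Z ω)) -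
          γ * (n / M : ℕ) - ε * n ≤
        CH μ (fun ω => dv (n - (i + 1) * (n / M)) (Yn n (t ω) (a ω) (x ω) (Λ ω)))
          (fun ω => (R ω, xi (i * (n / M)) (a ω) (x ω), Z ω))

/-- (UPW) upper bound on a window -/
def ST_UPW : Prop :=
  ∀ (m M : ℕ) (γ : ℝ), 1 ≤ M → WinL m γ → ∀ ε : ℝ, 0 < ε → ∃ η : ℝ, 0 < η ∧ ∃ n0 : ℕ, ∀ n : ℕ, n0 ≤ n →
    ∀ (Ω ζ κ : Type) [Fintype Ω] (μ : Ω → ℝ) (Z : Ω → ζ) (Q : Ω → κ) (a x : Ω → Fin m → ℝ) (t : Ω → ℝ)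
      (Λ : Ω → Fin m → ℤ),
      HS m n η μ Z a x t → Dep μ Q t →
      MI μ (fun ω => (a ω, x ω)) (fun ω => (Q ω, Λ ω)) Z ≤ η * n →
      CH μ (fun ω => Yn n (t ω) (a ω) (x ω) (Λ ω)) (fun ω => (Q ω, Z ω)) ≤
        CH μ (fun ω => cel n (x ω)) Z - (γ - η) * n →
      CH μ (fun ω => dv n (Yn n (t ω) (a ω) (x ω) (Λ ω))) (fun ω => (Q ω, Z ω)) ≤ ε * n ∧
      ∀ i : ℕ, i < M →
      CH μ (fun ω => dv (n - (i + 1) * (n / M)) (Yn n (t ω) (a ω) (x ω) (Λ ω)))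
          (fun ω => (dv (n - i * (n / M)) (Yn n (t ω) (a ω) (x ω) (Λ ω)), Q ω, Z ω)) ≤
        CH μ (fun ω => cel ((i + 1) * (n / M)) (x ω)) (fun ω => (cel (i * (n / M)) (x ω), Z ω)) -
          γ * (n / M : ℕ) + ε * n

/-! ### two times -/

/-- (CPL) conditional copy of `T` given `(U, c)`; `A` is a function of `T` -/
def ST_CPL : Prop :=
  ∀ (Ω 𝔾 τ γ : Type) [Fintype Ω] [AddCommGroup 𝔾] (μ : Ω → ℝ) (U V A : Ω → 𝔾) (T : Ω → τ) (c : Ω → γ),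
    (∀ ω, 0 ≤ μ ω) → (∀ ω, V ω = U ω + A ω) → Dep μ T A →
    ∃ (Ω' : Type) (_ : Fintype Ω') (μ' : Ω' → ℝ) (π : Ω' → Ω) (A' : Ω' → 𝔾),
      (∀ w, 0 ≤ μ' w) ∧ push π μ' = μ ∧ (∀ w, μ' w ≠ 0 → μ (π w) ≠ 0) ∧
      CH μ' (fun w => U (π w) + A' w) (fun w => c (π w)) = CH μ V c ∧
      (∀ (δ : Type) (X : Ω → δ), MI μ' (fun w => X (π w)) A' (fun w => (T (π w), c (π w))) ≤ MI μ U T c) ∧
      CH μ A c - MI μ U T c ≤ CH μ' A' (fun w => (T (π w), c (π w)))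

/-- (FLO) the floors: `L_J` etc. are the noises at level `J = l + w`, `|t - t'| ≤ 2 ^ (-w)` -/
def ST_FLO : Prop :=
  ∀ (m n l w : ℕ) (Ω κ : Type) [Fintype Ω] (μ : Ω → ℝ) (Q : Ω → κ) (a x : Ω → Fin m → ℝ) (t t' : Ω → ℝ)
    (Λ Λ' : Ω → Fin m → ℤ), (∀ ω, 0 ≤ μ ω) → mass μ = 1 → l + w ≤ n →
    (∀ ω i, 0 ≤ a ω i ∧ a ω i < 1) → (∀ ω i, 0 ≤ x ω i ∧ x ω i < 1) →
    Dep μ Q (fun ω => (t ω, t' ω)) → (∀ ω, μ ω ≠ 0 → |t ω - t' ω| * 2 ^ w ≤ 1) →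
    (∀ ω, 0 ≤ t ω ∧ t ω < 1) →
    CH μ (fun ω => dv (n - (l + w)) (Yn n (t' ω) (a ω) (x ω) (Λ' ω)) -
          dv (n - (l + w)) (Yn n (t ω) (a ω) (x ω) (Λ ω)))
        (fun ω => ((dv (n - (l + w)) (Λ ω), dv (n - (l + w)) (Λ' ω)), xi l (a ω) (x ω), Q ω)) ≤ 4 * m ∧
    CH μ (fun ω => dv (n - l) (Yn n (t ω) (a ω) (x ω) (Λ ω)))
        (fun ω => (dv (n - (l + w)) (Λ ω), xi l (a ω) (x ω), Q ω)) ≤ 3 * m ∧
    (∀ (ρ : Type) (R : Ω → ρ), Dep μ R (fun ω => dv (n - (l + w)) (Λ ω)) →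
      |CH μ (fun ω => dv (n - (l + w)) (Yn n (t ω) (a ω) (x ω) (Λ ω))) R -
        CH μ (fun ω => cel (l + w) (Yt (t ω) (a ω) (x ω))) R| ≤ m) ∧
    (∀ (ρ : Type) (R : Ω → ρ) (A : Ω → Fin m → ℤ), Dep μ R (fun ω => dv (n - (l + w)) (Λ ω)) →
      CH μ (fun ω => Yn (l + w) (t ω) (a ω) (x ω) (A ω)) R ≤
        CH μ (fun ω => dv (n - (l + w)) (Yn n (t ω) (a ω) (x ω) (Λ ω)) + A ω) R + m)

/-- hypotheses of the two-time lemma: both noises are absorbed, all data together are almost independent of the line -/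
structure TT (m n w : ℕ) (γ η : ℝ) {Ω ζ κ : Type} [Fintype Ω] (μ : Ω → ℝ) (Z : Ω → ζ) (Q : Ω → κ)
    (a x : Ω → Fin m → ℝ) (t t' : Ω → ℝ) (Λ Λ' : Ω → Fin m → ℤ) : Prop where
  s : HS m n η μ Z a x t
  s' : HS m n η μ Z a x t'
  d : Dep μ Q (fun ω => (t ω, t' ω))
  c : ∀ ω, μ ω ≠ 0 → |t ω - t' ω| * 2 ^ w ≤ 1
  i : MI μ (fun ω => (a ω, x ω)) (fun ω => (Q ω, Λ ω, Λ' ω)) Z ≤ η * n
  y : CH μ (fun ω => Yn n (t ω) (a ω) (x ω) (Λ ω)) (fun ω => (Q ω, Z ω)) ≤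
        CH μ (fun ω => cel n (x ω)) Z - (γ - η) * n
  y' : CH μ (fun ω => Yn n (t' ω) (a ω) (x ω) (Λ' ω)) (fun ω => (Q ω, Z ω)) ≤
        CH μ (fun ω => cel n (x ω)) Z - (γ - η) * n

/-- (TWW) two-time lemma on one window -/
def ST_TWW : Prop :=
  ∀ (m M : ℕ) (γ ν : ℝ), 1 ≤ M → WinL m γ → WinN m γ ν →
    ∀ ε : ℝ, 0 < ε → ∃ η : ℝ, 0 < η ∧ ∃ n0 : ℕ, ∀ n : ℕ, n0 ≤ n →
    ∀ (Ω ζ κ : Type) [Fintype Ω] (μ : Ω → ℝ) (Z : Ω → ζ) (Q : Ω → κ) (a x : Ω → Fin m → ℝ) (t t' : Ω → ℝ)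
      (Λ Λ' : Ω → Fin m → ℤ), TT m n (n / M) γ η μ Z Q a x t t' Λ Λ' → ∀ i : ℕ, i < M →
      CH μ (fun ω => dv (n - (i + 1) * (n / M)) (Yn n (t' ω) (a ω) (x ω) (Λ' ω)))
        (fun ω => (dv (n - (i + 1) * (n / M)) (Yn n (t ω) (a ω) (x ω) (Λ ω)),
          (dv (n - i * (n / M)) (Yn n (t ω) (a ω) (x ω) (Λ ω)),
            dv (n - i * (n / M)) (Yn n (t' ω) (a ω) (x ω) (Λ' ω))), Q ω, Z ω)) ≤
        (ν + ε) * (n / M : ℕ)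

/-- (TWO) two-time lemma -/
def ST_TWO : Prop :=
  ∀ (m M : ℕ) (γ ν : ℝ), 1 ≤ M → WinL m γ → WinN m γ ν →
    ∀ ε : ℝ, 0 < ε → ∃ η : ℝ, 0 < η ∧ ∃ n0 : ℕ, ∀ n : ℕ, n0 ≤ n →
    ∀ (Ω ζ κ : Type) [Fintype Ω] (μ : Ω → ℝ) (Z : Ω → ζ) (Q : Ω → κ) (a x : Ω → Fin m → ℝ) (t t' : Ω → ℝ)
      (Λ Λ' : Ω → Fin m → ℤ), TT m n (n / M) γ η μ Z Q a x t t' Λ Λ' →
      CH μ (fun ω => Yn n (t' ω) (a ω) (x ω) (Λ' ω))
        (fun ω => (Yn n (t ω) (a ω) (x ω) (Λ ω), Q ω, Z ω)) ≤ (ν + ε) * n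

/-! ### cubes of heights -/

open Classical in
/-- (CUB) cubes: `τ` is the integer height, `z` the data that all vertices have in common, `τ / N` the common cell;
an `(L + 1)`-cube consists of two `L`-cubes, conditionally independent given `z`, the cell and the steps -/
def ST_CUB : Prop :=
  ∀ (L : ℕ) (Ω ζ : Type) [Fintype Ω] (μ : Ω → ℝ) (z : Ω → ζ) (τ : Ω → ℤ) (N : ℕ),
    (∀ ω, 0 ≤ μ ω) → mass μ = 1 → 1 ≤ N →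
    ∃ (Ω' : Type) (_ : Fintype Ω') (μ' : Ω' → ℝ) (κ : Finset (Fin L) → Ω' → Ω),
      (∀ w, 0 ≤ μ' w) ∧ (∀ S, push (κ S) μ' = μ) ∧
      (∀ w, μ' w ≠ 0 → ∀ S, μ (κ S w) ≠ 0 ∧ z (κ S w) = z (κ ∅ w) ∧
        τ (κ S w) / (N : ℤ) = τ (κ ∅ w) / (N : ℤ) ∧
        τ (κ S w) - τ (κ ∅ w) = ∑ i ∈ S, (τ (κ {i} w) - τ (κ ∅ w))) ∧
      (∀ (α β : Type) (f : Ω → α) (g : Ω → β), Dep μ g (fun ω => (z ω, τ ω)) → ∀ S,
        CH μ' (fun w => f (κ S w))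
          (fun w => ((fun S' => if S' = S then none else some (f (κ S' w))), (fun S' => g (κ S' w)))) =
          CH μ f g) ∧
      (∀ (β δ : Type) (z0 : Ω → β) (d : Ω → δ), Dep μ z z0 → Dep μ d τ →
        MI μ' (fun w => z (κ ∅ w)) (fun w S => d (κ S w)) (fun w => z0 (κ ∅ w)) ≤ 2 ^ L * MI μ z d z0) ∧
      (∀ E : ℝ, 0 ≤ E → Real.logb 2 N - E ≤ CH μ τ (fun ω => (τ ω / (N : ℤ), z ω)) → ∀ i,
        Real.logb 2 N - 2 ^ L * (E + 1) ≤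
          CH μ' (fun w => τ (κ {i} w) - τ (κ ∅ w)) (fun w => z (κ ∅ w)))

open Classical in
/-- (CC) the cube of a system with an absorbed noise -/
def ST_CC : Prop :=
  ∀ (m L n w : ℕ) (η : ℝ) (Ω ζ θ : Type) [Fintype Ω] (μ : Ω → ℝ) (Z : Ω → ζ) (a x : Ω → Fin m → ℝ) (t : Ω → ℝ)
    (Θ : Ω → θ) (Λ : Ω → Fin m → ℤ), w ≤ n → HS m n η μ Z a x t →
    MI μ (fun ω => (a ω, x ω)) (fun ω => (Θ ω, Λ ω)) (fun ω => (t ω, Z ω)) ≤ η * n →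
    ∃ (Ω' : Type) (_ : Fintype Ω') (μ' : Ω' → ℝ) (Z' : Ω' → ζ) (a' x' : Ω' → Fin m → ℝ)
      (t' : Finset (Fin L) → Ω' → ℝ) (Θ' : Finset (Fin L) → Ω' → θ) (Λ' : Finset (Fin L) → Ω' → Fin m → ℤ),
      (∀ S, HS m n η μ' Z' a' x' (t' S)) ∧
      CH μ' (fun v => cel n (x' v)) Z' = CH μ (fun ω => cel n (x ω)) Z ∧
      (∀ S, CH μ' (Λ' S) (fun v => (Θ' S v, t' S v, Z' v)) = CH μ Λ (fun ω => (Θ ω, t ω, Z ω))) ∧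
      (∀ S, CH μ' (fun v => Yn n (t' S v) (a' v) (x' v) (Λ' S v)) (fun v => (Θ' S v, t' S v, Z' v)) =
        CH μ (fun ω => Yn n (t ω) (a ω) (x ω) (Λ ω)) (fun ω => (Θ ω, t ω, Z ω))) ∧
      (∀ S, CH μ Λ (fun ω => (Θ ω, t ω, Z ω)) - η * n ≤
        CH μ' (Λ' S) (fun v => ((fun S' => if S' = S then none else some (Λ' S' v)), (a' v, x' v),
          (fun S' => (Θ' S' v, t' S' v)), Z' v))) ∧
      MI μ' (fun v => (a' v, x' v)) (fun v => ((fun S => (Θ' S v, t' S v)), (fun S => Λ' S v))) Z' ≤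
        2 ^ (L + 1) * (η * n) ∧
      (∀ v, μ' v ≠ 0 → ∀ S, |t' ∅ v - t' S v| * 2 ^ w ≤ 1 ∧
        hn n (t' S v) - hn n (t' ∅ v) = ∑ i ∈ S, (hn n (t' {i} v) - hn n (t' ∅ v)) ∧
        |hn n (t' S v) - hn n (t' ∅ v)| ≤ 2 ^ (n - w)) ∧
      (∀ i, ((n : ℝ) - w) - 2 ^ L * (η * n + 1) ≤ CH μ' (fun v => hn n (t' {i} v) - hn n (t' ∅ v)) Z')

/-- (SMP) a nearly uniform step is not small -/
def ST_SMP : Prop :=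
  ∀ (Ω γ : Type) [Fintype Ω] (μ : Ω → ℝ) (p : Ω → ℤ) (g : Ω → γ) (N : ℕ) (K E : ℝ), (∀ ω, 0 ≤ μ ω) →
    mass μ = 1 → 0 < K → (2 : ℝ) ^ K ≤ N → (∀ ω, μ ω ≠ 0 → |p ω| ≤ N) → Real.logb 2 N - E ≤ CH μ p g →
    mass (res μ (fun ω => |(p ω : ℝ)| * (2 : ℝ) ^ K < N)) * K ≤ E + 3

/-! ### conditionally independent copies -/

/-- `π r`, `r : ι`, are conditionally independent copies of `Ω` given `K` -/
structure IIDc {Ω Ω' γ ι : Type} [Fintype Ω] [Fintype Ω'] (μ : Ω → ℝ) (K : Ω → γ) (μ' : Ω' → ℝ)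
    (π : ι → Ω' → Ω) : Prop where
  nn : ∀ w, 0 ≤ μ' w
  pu : ∀ r, push (π r) μ' = μ
  su : ∀ w, μ' w ≠ 0 → ∀ r, μ (π r w) ≠ 0
  eq : ∀ w, μ' w ≠ 0 → ∀ r r', K (π r w) = K (π r' w)
  ind : ∀ (α β : Type) (F F' : Finset ι) (f : ι → Ω → α) (g : ι → Ω → β) (r0 : ι), Disjoint F F' →
    CH μ' (fun w => fun r : F => f r (π r w)) (fun w => ((fun r : F' => g r (π r w)), K (π r0 w))) =
      ∑ r ∈ F, CH μ (f r) K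

/-- (IID) they exist -/
def ST_IID : Prop :=
  ∀ (Ω γ ι : Type) [Fintype Ω] [Fintype ι] [Nonempty ι] (μ : Ω → ℝ) (K : Ω → γ), (∀ ω, 0 ≤ μ ω) →
    ∃ (Ω' : Type) (_ : Fintype Ω') (μ' : Ω' → ℝ) (π : ι → Ω' → Ω), IIDc μ K μ' π

/-- (KV) sums of conditionally independent copies: `Λ` is a function of `K`, `c` a function of `K`, `B` a function
of `(X, c)` -/
def ST_KV : Prop :=
  ∀ (Ω Ω' 𝔾 γ κ ξ ι : Type) [Fintype Ω] [Fintype Ω'] [AddCommGroup 𝔾] (μ : Ω → ℝ) (μ' : Ω' → ℝ)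
    (π : ι → Ω' → Ω) (K : Ω → κ) (c : Ω → γ) (X : Ω → ξ) (Λ B : Ω → 𝔾) (r0 : ι) (F : Finset ι),
    (∀ ω, 0 ≤ μ ω) → IIDc μ K μ' π → Dep μ K c → Dep μ K Λ → Dep μ (fun ω => (X ω, c ω)) B → F.Nonempty →
    CH μ' (fun w => ∑ r ∈ F, B (π r w)) (fun w => K (π r0 w)) ≤
      CH μ (fun ω => Λ ω + B ω) c + F.card * ((CH μ (fun ω => Λ ω + B ω) c - CH μ Λ (fun ω => (X ω, c ω))) +
        F.card * MI μ X K c)

open Classical in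
/-- (CDA) the conditioning `c = (P + Λ_o, Q, Z)`, `K = ((Λ_j)_(j ≠ o), c)` -/
def ST_CDA : Prop :=
  ∀ (Ω ζ κ ξ 𝔾 ι : Type) [Fintype Ω] [AddCommGroup 𝔾] [Fintype ι] (μ : Ω → ℝ) (Z : Ω → ζ) (Q : Ω → κ)
    (X : Ω → ξ) (Λ : ι → Ω → 𝔾) (P : Ω → 𝔾) (o : ι) (u v y e : ℝ), (∀ ω, 0 ≤ μ ω) → mass μ = 1 →
    Dep μ (fun ω => (X ω, Q ω)) P →
    (∀ i, CH μ (Λ i) (fun ω => (Q ω, Z ω)) ≤ u) →
    (∀ i, v ≤ CH μ (Λ i) (fun ω => ((fun j => if j = i then none else some (Λ j ω)), X ω, Q ω, Z ω))) →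
    MI μ X (fun ω => (Q ω, fun j => Λ j ω)) Z ≤ e →
    CH μ (fun ω => P ω + Λ o ω) (fun ω => (Q ω, Z ω)) ≤ y →
    MI μ X (fun ω => ((fun j => if j = o then none else some (Λ j ω)), P ω + Λ o ω, Q ω, Z ω))
      (fun ω => (P ω + Λ o ω, Q ω, Z ω)) ≤ Fintype.card ι * (u - v) ∧
    MI μ X (fun ω => ((fun j => if j = o then none else some (Λ j ω)), P ω + Λ o ω, Q ω, Z ω)) Z ≤ e + y - v ∧
    (∀ i, i ≠ o → v ≤ CH μ (Λ i) (fun ω => (X ω, P ω + Λ o ω, Q ω, Z ω))) ∧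
    CH μ P (fun ω => (P ω + Λ o ω, Q ω, Z ω)) ≤ u

/-! ### the final configuration -/

/-- data for the end of the proof: `c` contains the heights, `K` contains `c` and the noises at the vertices `S ≠ ∅` -/
structure CD (m L n w : ℕ) (γ ν κ s : ℝ) {Ω ct kt : Type} [Fintype Ω] (μ : Ω → ℝ) (c : Ω → ct) (K : Ω → kt)
    (a x : Ω → Fin m → ℝ) (t : Finset (Fin L) → Ω → ℝ) (Λ : Finset (Fin L) → Ω → Fin m → ℤ)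
    (p : Fin L → Ω → ℤ) : Prop where
  nn : ∀ ω, 0 ≤ μ ω
  ms : mass μ = 1
  ab : ∀ ω i, 0 ≤ a ω i ∧ a ω i < 1
  xb : ∀ ω i, 0 ≤ x ω i ∧ x ω i < 1
  tb : ∀ S ω, 0 ≤ t S ω ∧ t S ω < 1
  kc : Dep μ K c
  ct : ∀ S, Dep μ c (t S)
  kl : ∀ S, S ≠ ∅ → Dep μ K (Λ S)
  hp : ∀ S ω, μ ω ≠ 0 → hn n (t S ω) = hn n (t ∅ ω) + ∑ i ∈ S, p i ω
  pb : ∀ i ω, μ ω ≠ 0 → |p i ω| ≤ 2 ^ (n - w)
  ps : ∀ i, mass (res μ (fun ω => |(p i ω : ℝ)| * (2 : ℝ) ^ (κ * n) < 2 ^ (n - w))) ≤ s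
  hx : (γ + ν - s) * n ≤ CH μ (fun ω => cel n (x ω)) K
  hy : ∀ S, S ≠ ∅ → CH μ (fun ω => Yn n (t S ω) (a ω) (x ω) (Λ S ω)) c ≤ (ν + s) * n
  hl : ∀ S, S ≠ ∅ → (ν - s) * n ≤ CH μ (Λ S) (fun ω => ((a ω, x ω), c ω))
  hi : MI μ (fun ω => (a ω, x ω)) K c ≤ s * n
  h0 : CH μ (fun ω => cel n (Yt (t ∅ ω) (a ω) (x ω))) c ≤ (ν + s) * n

/-- (CD) the final configuration exists at arbitrarily large depths -/
def ST_CD : Prop :=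
  ∀ (m : ℕ) (γ ν : ℝ), GapH m γ → NB m γ ν → (∀ δ : ℝ, 0 < δ → ¬ NB m γ (ν - δ)) →
    ∀ (L M : ℕ) (κ s : ℝ), 2 ≤ M → 0 < κ → κ ≤ 1 / 4 → 0 < s → ∀ n0 : ℕ, ∃ n : ℕ, n0 ≤ n ∧
    ∃ (Ω ct kt : Type) (_ : Fintype Ω) (μ : Ω → ℝ) (c : Ω → ct) (K : Ω → kt) (a x : Ω → Fin m → ℝ)
      (t : Finset (Fin L) → Ω → ℝ) (Λ : Finset (Fin L) → Ω → Fin m → ℤ) (p : Fin L → Ω → ℤ),
      CD m L n (n / M) γ ν κ s μ c K a x t Λ p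

/-- (LWR) lower bound for the entropy of the cube sums (Boolean lattice) -/
def ST_LWR : Prop :=
  ∀ m k : ℕ, ∃ C : ℝ, 0 ≤ C ∧ ∀ (n w : ℕ) (κ s : ℝ) (Ω Ω' kt : Type) [Fintype Ω] [Fintype Ω'] (μ : Ω → ℝ)
    (μ' : Ω' → ℝ) (π : Finset (Fin (2 * k + 1)) → Ω' → Ω) (K : Ω → kt) (a x : Ω → Fin m → ℝ)
    (t : Finset (Fin (2 * k + 1)) → Ω → ℝ) (p : Fin (2 * k + 1) → Ω → ℤ), w ≤ n → 0 ≤ κ → 0 ≤ s →
    (∀ ω, 0 ≤ μ ω) → mass μ = 1 → (∀ ω i, 0 ≤ a ω i ∧ a ω i < 1) → (∀ ω i, 0 ≤ x ω i ∧ x ω i < 1) →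
    (∀ S ω, 0 ≤ t S ω ∧ t S ω < 1) → (∀ S, Dep μ K (t S)) →
    (∀ S ω, μ ω ≠ 0 → hn n (t S ω) = hn n (t ∅ ω) + ∑ i ∈ S, p i ω) →
    (∀ i ω, μ ω ≠ 0 → |p i ω| ≤ 2 ^ (n - w)) →
    (∀ i, mass (res μ (fun ω => |(p i ω : ℝ)| * (2 : ℝ) ^ (κ * n) < 2 ^ (n - w))) ≤ s) →
    IIDc μ K μ' π →
    4 ^ k * (CH μ (fun ω => cel n (x ω)) K - m * (w + (k + 1) * κ * n + (2 * k + 1) * s * n)) - C ≤
      CH μ' (fun v => fun S : {S : Finset (Fin (2 * k + 1)) // S.card ≤ k + 1} =>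
          ∑ R ∈ S.1.powerset.filter (fun R => R.card ≤ k), cel n (Yt (t S.1 (π ∅ v)) (a (π R v)) (x (π R v))))
        (fun v => K (π ∅ v))

/-- (INQ) the final inequality -/
def ST_INQ : Prop :=
  ∀ m k : ℕ, ∃ C : ℝ, 0 ≤ C ∧ ∀ (n w : ℕ) (γ ν κ s : ℝ) (Ω ct kt : Type) [Fintype Ω] (μ : Ω → ℝ) (c : Ω → ct)
    (K : Ω → kt) (a x : Ω → Fin m → ℝ) (t : Finset (Fin (2 * k + 1)) → Ω → ℝ)
    (Λ : Finset (Fin (2 * k + 1)) → Ω → Fin m → ℤ) (p : Fin (2 * k + 1) → Ω → ℤ), w ≤ n → 0 ≤ κ → 0 ≤ s →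
    CD m (2 * k + 1) n w γ ν κ s μ c K a x t Λ p →
    4 ^ k * ((γ + ν - s) * n - m * (w + (k + 1) * κ * n + (2 * k + 1) * s * n)) - C ≤
      (4 ^ k + ((2 * k + 1).choose (k + 1) : ℝ)) * ((ν + 4 ^ (2 * k + 3) * s) * n)

/-- (BIN) binomial coefficients -/
def ST_BIN : Prop := ∀ ε : ℝ, 0 < ε → ∃ k : ℕ, ((2 * k + 1).choose (k + 1) : ℝ) ≤ ε * 4 ^ k

/-- (CON) the contradiction -/
def ST_CON : Prop :=
  ∀ (m : ℕ) (γ ν : ℝ), 0 < γ → GapH m γ → NB m γ ν → (∀ δ : ℝ, 0 < δ → ¬ NB m γ (ν - δ)) → False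

/-- (NBZ) noise bounds: some `ν` is a bound, no negative `ν` is one if the gap `γ` is attained -/
def ST_NBZ : Prop :=
  ∀ (m : ℕ) (γ : ℝ), (∀ δ : ℝ, 0 < δ → ¬ GapH m (γ - δ)) → (∃ ν : ℝ, NB m γ ν) ∧ ∀ ν : ℝ, NB m γ ν → 0 ≤ ν

/-- (GHZ) gap bounds: some `γ` is a bound, no negative `γ` is one -/
def ST_GHZ : Prop := ∀ m : ℕ, (∃ γ : ℝ, GapH m γ) ∧ ∀ γ : ℝ, GapH m γ → 0 ≤ γ

/-- (GAP) the core theorem -/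
def ST_GAP : Prop := ∀ m : ℕ, GapH m 0

end

end Pool.Agent.Helper66.HK
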